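import Pool.Agent.X23.L3.Stm

/-!
# LT_TB (c) : the final count
-/

namespace Pool.Agent.X41.L3

open Pool.Agent.X23.L3

theorem kset {n : ℕ} (X : Sys n) (U : Finset (Fin n)) (m : Fin n → Fin n) (hU : 3 * U.card ≤ n)
    (hm : ∀ x, x ∉ U → m x ∉ U ∧ m (m x) = x ∧ x ≠ m x ∧ touch X x (m x)) :
    ∃ K : Finset (Fin 3 → ℝ), 3 * K.card ≤ 2 * n ∧
      (∀ x ∈ K, (∀ k, X.a k ⬝ᵥ x ≤ X.b k) ∧ ∃ i, X.a i ⬝ᵥ x = X.b i) ∧
      ∀ i, ∃ x ∈ K, X.a i ⬝ᵥ x = X.b i := by
  classical
  have hp : ∀ i : Fin n, ∃ p : Fin 3 → ℝ, i ∉ U → (∀ k, X.a k ⬝ᵥ p ≤ X.b k) ∧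
      X.a i ⬝ᵥ p = X.b i ∧ X.a (m i) ⬝ᵥ p = X.b (m i) := by
    intro i
    by_cases h : i ∈ U
    · exact ⟨0, fun h' => absurd h h'⟩
    · obtain ⟨x, hx⟩ := (hm i h).2.2.2
      exact ⟨x, fun _ => hx⟩
  choose p hp using hp
  let A : Finset (Fin n) := Finset.univ.filter fun i => i ∉ U ∧ i < m i
  let B : Finset (Fin n) := Finset.univ.filter fun i => i ∉ U ∧ m i < i
  have hAB : A.card = B.card := by
    apply Finset.card_bij' (fun i _ => m i) (fun i _ => m i)
    · intro i hi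
      obtain ⟨h1, h2⟩ := (Finset.mem_filter.1 hi).2
      obtain ⟨h3, h4, h5, h6⟩ := hm i h1
      exact Finset.mem_filter.2 ⟨Finset.mem_univ _, h3, by rw [h4]; exact h2⟩
    · intro i hi
      obtain ⟨h1, h2⟩ := (Finset.mem_filter.1 hi).2
      obtain ⟨h3, h4, h5, h6⟩ := hm i h1
      exact Finset.mem_filter.2 ⟨Finset.mem_univ _, h3, by rw [h4]; exact h2⟩
    · intro i hi
      exact (hm i (Finset.mem_filter.1 hi).2.1).2.1
    · intro i hi
      exact (hm i (Finset.mem_filter.1 hi).2.1).2.1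
  have hUA : Disjoint U A := by
    rw [Finset.disjoint_left]; intro i hi h; exact (Finset.mem_filter.1 h).2.1 hi
  have hUB : Disjoint (U ∪ A) B := by
    rw [Finset.disjoint_left]; intro i hi h
    rcases Finset.mem_union.1 hi with h' | h'
    · exact (Finset.mem_filter.1 h).2.1 h'
    · exact absurd (Finset.mem_filter.1 h).2.2 (not_lt.2 (Finset.mem_filter.1 h').2.2.le)
  have hsum : U.card + A.card + B.card ≤ n := by
    rw [← Finset.card_union_of_disjoint hUA, ← Finset.card_union_of_disjoint hUB]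
    simpa using Finset.card_le_univ (U ∪ A ∪ B)
  refine ⟨U.image X.y ∪ A.image p, ?_, ?_, ?_⟩
  · have h1 := Finset.card_union_le (U.image X.y) (A.image p)
    have h2 := Finset.card_image_le (s := U) (f := X.y)
    have h3 := Finset.card_image_le (s := A) (f := p)
    omega
  · intro x hx
    rcases Finset.mem_union.1 hx with h | h
    · obtain ⟨i, hi, rfl⟩ := Finset.mem_image.1 h
      refine ⟨fun k => ?_, i, X.hy i⟩
      by_cases hk : k = i
      · subst hk; exact (X.hy k).le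
      · exact (X.hy2 i k hk).le
    · obtain ⟨i, hi, rfl⟩ := Finset.mem_image.1 h
      have := hp i (Finset.mem_filter.1 hi).2.1
      exact ⟨this.1, i, this.2.1⟩
  · intro i
    by_cases h : i ∈ U
    · exact ⟨X.y i, Finset.mem_union_left _ (Finset.mem_image_of_mem _ h), X.hy i⟩
    · obtain ⟨h3, h4, h5, h6⟩ := hm i h
      rcases lt_or_gt_of_ne h5 with h7 | h7
      · exact ⟨p i, Finset.mem_union_right _ (Finset.mem_image_of_mem _
          (Finset.mem_filter.2 ⟨Finset.mem_univ _, h, h7⟩)), (hp i h).2.1⟩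
      · refine ⟨p (m i), Finset.mem_union_right _ (Finset.mem_image_of_mem _
          (Finset.mem_filter.2 ⟨Finset.mem_univ _, h3, by rw [h4]; exact h7⟩)), ?_⟩
        have := (hp (m i) h3).2.2
        rwa [h4] at this

end Pool.Agent.X41.L3
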